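import Pool.Agent.Helper6.GP.Goals
import Pool.Agent.Helper11.AK.GG

/-!
# Project GP, packet TGR: from the gap on tuples to the gap in the representations
-/

set_option linter.unusedVariables false
set_option linter.unusedSectionVars false

namespace Pool.Agent.Helper56.GP.TGR

open Matrix Equiv Pool.Agent.Helper15.An Pool.Agent.Helper6.GP
open scoped ComplexOrder

variable {n D : ℕ}

/-- The twisted sum. -/
noncomputable def SV (ρ : Perm (Fin n) →* Matrix (Fin D) (Fin D) ℂ) (v : Fin D → ℂ) :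
    Matrix (Fin D) (Fin D) ℂ :=
  ∑ g : Alt n, (ρ (g : Perm (Fin n)))ᴴ * vecMulVec v (star v) * ρ (g : Perm (Fin n))

lemma conj_F (R : Matrix (Fin D) (Fin D) ℂ) (v w u : Fin D → ℂ) :
    star (star v ⬝ᵥ (R *ᵥ w)) * (star v ⬝ᵥ (R *ᵥ u)) =
      star w ⬝ᵥ ((Rᴴ * vecMulVec v (star v) * R) *ᵥ u) := by
  have h1 : (Rᴴ * vecMulVec v (star v) * R) *ᵥ u = (star v ⬝ᵥ (R *ᵥ u)) • (Rᴴ *ᵥ v) := by
    rw [← Matrix.mulVec_mulVec, ← Matrix.mulVec_mulVec]
    have : vecMulVec v (star v) *ᵥ (R *ᵥ u) = (star v ⬝ᵥ (R *ᵥ u)) • v := by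
      ext i
      simp only [Matrix.mulVec, vecMulVec, dotProduct, Matrix.of_apply, Pi.smul_apply, smul_eq_mul]
      rw [Finset.sum_mul]
      refine Finset.sum_congr rfl fun j _ => ?_
      ring
    rw [this, Matrix.mulVec_smul]
  have h2 : star (star v ⬝ᵥ (R *ᵥ w)) = star w ⬝ᵥ (Rᴴ *ᵥ v) := by
    rw [← star_dotProduct, star_mulVec, ← dotProduct_mulVec]
  rw [h1, h2, dotProduct_smul, smul_eq_mul, mul_comm]

lemma sum_conj_F (ρ : Perm (Fin n) →* Matrix (Fin D) (Fin D) ℂ) (v w u : Fin D → ℂ) :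
    ∑ g : Alt n, star (star v ⬝ᵥ (ρ (g : Perm (Fin n)) *ᵥ w)) *
      (star v ⬝ᵥ (ρ (g : Perm (Fin n)) *ᵥ u)) = star w ⬝ᵥ (SV ρ v *ᵥ u) := by
  unfold SV
  rw [Matrix.sum_mulVec, dotProduct_sum]
  exact Finset.sum_congr rfl fun g _ => conj_F _ v w u

/-- Splitting the group into even and odd permutations. -/
lemma sum_split {M : Type*} [AddCommMonoid M] (τ : Perm (Fin n)) (hτ : Perm.sign τ = -1)
    (f : Perm (Fin n) → M) :
    ∑ g, f g = ∑ a : Alt n, f a + ∑ a : Alt n, f (τ⁻¹ * a) := by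
  classical
  have h1 : ∀ F : Perm (Fin n) → M, ∑ a : Alt n, F a = ∑ g, if Perm.sign g = 1 then F g else 0 := by
    intro F
    rw [← Finset.sum_filter]
    refine (Finset.sum_subtype (Finset.univ.filter fun g : Perm (Fin n) => Perm.sign g = 1)
      (fun g => ?_) F).symm
    rw [Finset.mem_filter, Perm.mem_alternatingGroup]
    simp
  rw [h1 f, h1 (fun g => f (τ⁻¹ * g)), ← Equiv.sum_comp (Equiv.mulLeft τ⁻¹)
    (fun g => if Perm.sign g = 1 then f g else 0), ← Finset.sum_add_distrib,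
    ← Equiv.sum_comp (Equiv.mulLeft τ⁻¹) f]
  refine Finset.sum_congr rfl fun g _ => ?_
  simp only [Equiv.coe_mulLeft]
  rw [map_mul, Perm.sign_inv, hτ]
  rcases Int.units_eq_one_or (Perm.sign g) with h | h
  · rw [h, if_neg (by decide), if_pos rfl, zero_add]
  · rw [h, if_pos (by decide), if_neg (by decide), add_zero]

lemma SV_add (ρ : Perm (Fin n) →* Matrix (Fin D) (Fin D) ℂ) (hρ : IsIrr ρ) (v : Fin D → ℂ)
    (τ : Perm (Fin n)) (hτ : Perm.sign τ = -1) :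
    SV ρ v + SV ρ (ρ τ *ᵥ v) =
      (((Fintype.card (Perm (Fin n)) : ℝ) * nrm2 v / D : ℝ) : ℂ) •
        (1 : Matrix (Fin D) (Fin D) ℂ) := by
  have h1 := schur' hρ (vecMulVec v (star v))
  rw [sum_split τ hτ] at h1
  have h2 : SV ρ (ρ τ *ᵥ v) = ∑ a : Alt n, (ρ (τ⁻¹ * (a : Perm (Fin n))))ᴴ *
      vecMulVec v (star v) * ρ (τ⁻¹ * (a : Perm (Fin n))) := by
    unfold SV
    refine Finset.sum_congr rfl fun a _ => ?_
    have h3 : vecMulVec (ρ τ *ᵥ v) (star (ρ τ *ᵥ v)) =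
        ρ τ * vecMulVec v (star v) * (ρ τ)ᴴ := by
      rw [star_mulVec, Matrix.mul_vecMulVec, Matrix.vecMulVec_mul]
    have h4 : ρ τ⁻¹ = (ρ τ)ᴴ := (rho_conj ρ hρ.unit τ).symm
    rw [h3, map_mul, h4, conjTranspose_mul, conjTranspose_conjTranspose]
    simp only [Matrix.mul_assoc]
  rw [h2]
  unfold SV
  rw [h1]
  congr 1
  have h5 : trace (vecMulVec v (star v)) = ((nrm2 v : ℝ) : ℂ) := by
    rw [trace_vecMulVec, dotProduct_comm, star_dot_self]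
  rw [h5]
  push_cast
  rfl

lemma walk_F (ρ : Perm (Fin n) →* Matrix (Fin D) (Fin D) ℂ) (hρ : IsIrr ρ) (v w : Fin D → ℂ)
    {k : ℕ} (x : Fin k → Alt n) (g : Alt n) :
    star v ⬝ᵥ (ρ (g : Perm (Fin n)) *ᵥ (wop ρ (tupW x) *ᵥ w)) =
      (((2 * (k : ℝ))⁻¹ : ℝ) : ℂ) * ∑ i, (star v ⬝ᵥ (ρ ((g * x i : Alt n) : Perm (Fin n)) *ᵥ w) +
        star v ⬝ᵥ (ρ ((g * (x i)⁻¹ : Alt n) : Perm (Fin n)) *ᵥ w)) := by
  rw [wop_tupW ρ hρ.unit, avgRe, Matrix.smul_mulVec, Matrix.mulVec_smul, dotProduct_smul,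
    Matrix.sum_mulVec, Matrix.mulVec_sum, dotProduct_sum, Complex.real_smul]
  congr 1
  refine Finset.sum_congr rfl fun i _ => ?_
  rw [Matrix.add_mulVec, Matrix.mulVec_add, dotProduct_add, rho_conj ρ hρ.unit,
    Matrix.mulVec_mulVec, Matrix.mulVec_mulVec, ← map_mul, ← map_mul]
  rfl

lemma key {k r : ℕ} {x : Fin k → Alt n} {ε : ℝ}
    (hgap : Pool.Agent.Helper3.AK.GroupGap x r ε)
    (ρ : Perm (Fin n) →* Matrix (Fin D) (Fin D) ℂ) (hρ : IsIrr ρ) (hps : psum ρ (Alt n) = 0)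
    (v : Fin D → ℂ) (hv : ∀ h : stab n r, ρ (h : Perm (Fin n)) *ᵥ v = v) (w : Fin D → ℂ) :
    (star w ⬝ᵥ (SV ρ v *ᵥ (wop ρ (tupW x) *ᵥ w))).re ≤
      (1 - ε) * (star w ⬝ᵥ (SV ρ v *ᵥ w)).re := by
  have hinv : ∀ h g : Alt n, (∀ i : Fin n, i.val < r → (h : Perm (Fin n)) i = i) →
      star v ⬝ᵥ (ρ ((h * g : Alt n) : Perm (Fin n)) *ᵥ w) =
        star v ⬝ᵥ (ρ (g : Perm (Fin n)) *ᵥ w) := by
    intro h g hh
    have hs : (h : Perm (Fin n)) ∈ stab n r := ⟨Perm.mem_alternatingGroup.1 h.2, hh⟩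
    have h1 := hv (⟨(h : Perm (Fin n)), hs⟩⁻¹ : stab n r)
    have h2 : ρ (h : Perm (Fin n))⁻¹ *ᵥ v = v := h1
    rw [Subgroup.coe_mul, map_mul, ← Matrix.mulVec_mulVec, dotProduct_mulVec]
    have h3 : star v ᵥ* ρ (h : Perm (Fin n)) = star v := by
      have : star (ρ (h : Perm (Fin n))⁻¹ *ᵥ v) = star v := by rw [h2]
      rw [star_mulVec, ← rho_conj ρ hρ.unit, conjTranspose_conjTranspose] at this
      exact this
    rw [h3]
  have hsum : ∑ g : Alt n, star v ⬝ᵥ (ρ (g : Perm (Fin n)) *ᵥ w) = 0 := by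
    rw [← dotProduct_sum, ← Matrix.sum_mulVec]
    unfold psum at hps
    rw [hps]
    simp
  have hre := hgap (fun g => (star v ⬝ᵥ (ρ (g : Perm (Fin n)) *ᵥ w)).re)
    (by rw [← Complex.re_sum, hsum]; rfl)
    (by intro h g hh; rw [hinv h g hh])
  have him := hgap (fun g => (star v ⬝ᵥ (ρ (g : Perm (Fin n)) *ᵥ w)).im)
    (by rw [← Complex.im_sum, hsum]; rfl)
    (by intro h g hh; rw [hinv h g hh])
  have hwre : ∀ g : Alt n, Pool.Agent.Helper3.AK.walk x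
      (fun g => (star v ⬝ᵥ (ρ (g : Perm (Fin n)) *ᵥ w)).re) g =
      (star v ⬝ᵥ (ρ (g : Perm (Fin n)) *ᵥ (wop ρ (tupW x) *ᵥ w))).re := by
    intro g
    rw [walk_F ρ hρ, Complex.re_ofReal_mul, Complex.re_sum]
    rfl
  have hwim : ∀ g : Alt n, Pool.Agent.Helper3.AK.walk x
      (fun g => (star v ⬝ᵥ (ρ (g : Perm (Fin n)) *ᵥ w)).im) g =
      (star v ⬝ᵥ (ρ (g : Perm (Fin n)) *ᵥ (wop ρ (tupW x) *ᵥ w))).im := by
    intro g
    rw [walk_F ρ hρ, Complex.im_ofReal_mul, Complex.im_sum]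
    rfl
  simp_rw [hwre] at hre
  simp_rw [hwim] at him
  rw [← sum_conj_F, ← sum_conj_F, Complex.re_sum, Complex.re_sum]
  have e1 : ∑ g : Alt n, (star (star v ⬝ᵥ (ρ (g : Perm (Fin n)) *ᵥ w)) *
      (star v ⬝ᵥ (ρ (g : Perm (Fin n)) *ᵥ (wop ρ (tupW x) *ᵥ w)))).re =
      ∑ g : Alt n, (star v ⬝ᵥ (ρ (g : Perm (Fin n)) *ᵥ w)).re *
        (star v ⬝ᵥ (ρ (g : Perm (Fin n)) *ᵥ (wop ρ (tupW x) *ᵥ w))).re +
      ∑ g : Alt n, (star v ⬝ᵥ (ρ (g : Perm (Fin n)) *ᵥ w)).im *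
        (star v ⬝ᵥ (ρ (g : Perm (Fin n)) *ᵥ (wop ρ (tupW x) *ᵥ w))).im := by
    rw [← Finset.sum_add_distrib]
    refine Finset.sum_congr rfl fun g _ => ?_
    rw [Complex.mul_re, Complex.star_def, Complex.conj_re, Complex.conj_im]
    ring
  have e2 : ∑ g : Alt n, (star (star v ⬝ᵥ (ρ (g : Perm (Fin n)) *ᵥ w)) *
      (star v ⬝ᵥ (ρ (g : Perm (Fin n)) *ᵥ w))).re =
      ∑ g : Alt n, (star v ⬝ᵥ (ρ (g : Perm (Fin n)) *ᵥ w)).re ^ 2 +
      ∑ g : Alt n, (star v ⬝ᵥ (ρ (g : Perm (Fin n)) *ᵥ w)).im ^ 2 := by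
    rw [← Finset.sum_add_distrib]
    refine Finset.sum_congr rfl fun g _ => ?_
    rw [Complex.mul_re, Complex.star_def, Complex.conj_re, Complex.conj_im]
    ring
  rw [e1, e2, mul_add]
  exact add_le_add hre him

theorem thm : S_TGR := by
  intro n k r D x ε hk hr hgap ρ hρ hnt hfix
  have hG := Pool.Agent.Helper11.AK.gg n k r hr x ε hgap
  obtain ⟨v, hv0, hv⟩ := hfix
  have hps : psum ρ (Alt n) = 0 := by
    rcases dichotomy hρ (Alt n) with h | h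
    · exact absurd h hnt
    · exact h
  set τ : Perm (Fin n) := swap ⟨r, by omega⟩ ⟨r + 1, by omega⟩ with ht
  have hτ : Perm.sign τ = -1 :=
    Perm.sign_swap (by intro h; have := congrArg Fin.val h; simp at this)
  have hτf : ∀ i : Fin n, i.val < r → τ i = i := by
    intro i hi
    refine swap_apply_of_ne_of_ne ?_ ?_
    · rintro rfl
      simp at hi
    · rintro rfl
      simp at hi
  have hv' : ∀ h : stab n r, ρ (h : Perm (Fin n)) *ᵥ (ρ τ *ᵥ v) = ρ τ *ᵥ v := by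
    intro h
    have hs : τ⁻¹ * (h : Perm (Fin n)) * τ ∈ stab n r := by
      have h2 := mem_stab.1 h.2
      refine mem_stab.2 ⟨?_, ?_⟩
      · rw [map_mul, map_mul, Perm.sign_inv, h2.1, hτ]
        decide
      · intro j hj
        rw [Perm.mul_apply, Perm.mul_apply, hτf j hj, h2.2 j hj, Perm.inv_eq_iff_eq, hτf j hj]
    have h1 := hv ⟨_, hs⟩
    have h3 : (h : Perm (Fin n)) * τ = τ * (τ⁻¹ * (h : Perm (Fin n)) * τ) := by group
    rw [Matrix.mulVec_mulVec, ← map_mul, h3, map_mul, ← Matrix.mulVec_mulVec, h1]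
  have hnv : 0 < nrm2 v := by
    rcases (nrm2_nonneg v).eq_or_lt with h | h
    · exfalso
      apply hv0
      ext i
      have h1 : ‖v i‖ ^ 2 ≤ 0 := by
        rw [h]
        exact Finset.single_le_sum (f := fun i => ‖v i‖ ^ 2) (fun i _ => by positivity)
          (Finset.mem_univ i)
      have h2 : ‖v i‖ = 0 := by nlinarith [norm_nonneg (v i)]
      simpa using h2
    · exact h
  have hD : (0 : ℝ) < D := by exact_mod_cast hρ.pos
  have hC : 0 < (Fintype.card (Perm (Fin n)) : ℝ) * nrm2 v / D := by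
    have : (0 : ℝ) < Fintype.card (Perm (Fin n)) := by exact_mod_cast Fintype.card_pos
    positivity
  have hherm : (wop ρ (tupW x)).IsHermitian :=
    wop_isHermitian ρ hρ.unit (tupW_isSP (by omega) x)
  refine posSemidef_of_qf ?_ fun w => ?_
  · refine Matrix.IsHermitian.sub ?_ hherm
    unfold Matrix.IsHermitian
    rw [conjTranspose_smul, conjTranspose_one]
    simp
  · rw [qf_sub, qf_smul, qf_one]
    have h1 := key hG ρ hρ hps v hv w
    have h2 := key hG ρ hρ hps (ρ τ *ᵥ v) hv' w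
    have hadd := SV_add ρ hρ v τ hτ
    have e1 : star w ⬝ᵥ (SV ρ v *ᵥ (wop ρ (tupW x) *ᵥ w)) +
        star w ⬝ᵥ (SV ρ (ρ τ *ᵥ v) *ᵥ (wop ρ (tupW x) *ᵥ w)) =
        (((Fintype.card (Perm (Fin n)) : ℝ) * nrm2 v / D : ℝ) : ℂ) *
          (star w ⬝ᵥ (wop ρ (tupW x) *ᵥ w)) := by
      rw [← dotProduct_add, ← Matrix.add_mulVec, hadd, Matrix.smul_mulVec, Matrix.one_mulVec,
        dotProduct_smul, smul_eq_mul]
    have e2 : star w ⬝ᵥ (SV ρ v *ᵥ w) + star w ⬝ᵥ (SV ρ (ρ τ *ᵥ v) *ᵥ w) =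
        (((Fintype.card (Perm (Fin n)) : ℝ) * nrm2 v / D : ℝ) : ℂ) * (star w ⬝ᵥ w) := by
      rw [← dotProduct_add, ← Matrix.add_mulVec, hadd, Matrix.smul_mulVec, Matrix.one_mulVec,
        dotProduct_smul, smul_eq_mul]
    have e1' := congrArg Complex.re e1
    have e2' := congrArg Complex.re e2
    rw [Complex.re_ofReal_mul, Complex.add_re] at e1' e2'
    have h3 : (Fintype.card (Perm (Fin n)) : ℝ) * nrm2 v / D * qf (wop ρ (tupW x)) w ≤
        (Fintype.card (Perm (Fin n)) : ℝ) * nrm2 v / D * ((1 - ε) * nrm2 w) := by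
      rw [nrm2_eq w]
      unfold qf
      rw [← e1']
      have : (Fintype.card (Perm (Fin n)) : ℝ) * nrm2 v / D * ((1 - ε) * (star w ⬝ᵥ w).re) =
          (1 - ε) * ((Fintype.card (Perm (Fin n)) : ℝ) * nrm2 v / D * (star w ⬝ᵥ w).re) := by
        ring
      rw [this, ← e2', mul_add]
      exact add_le_add h1 h2
    have h4 := le_of_mul_le_mul_left h3 hC
    linarith

end Pool.Agent.Helper56.GP.TGR
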