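import Pool.Agent.Helper6.GP.Goals

/-!
# Project GP, packet CLS: the class of type `(M^q, s, s)`
-/

set_option linter.unusedVariables false

namespace Pool.Agent.Helper56.GP

open Equiv Pool.Agent.Helper15.An Pool.Agent.Helper6.GP

/-- The support of a power. -/
lemma support_pow {α : Type*} [Fintype α] [DecidableEq α] (σ : Perm α) (M : ℕ) :
    (σ ^ M).support = (σ.cycleFactorsFinset.filter
      (fun c => ¬ c.support.card ∣ M)).biUnion Perm.support := by
  ext p
  simp only [Finset.mem_biUnion, Finset.mem_filter]
  constructor
  · intro hp
    have h1 : (σ ^ M) p ≠ p := Perm.mem_support.1 hp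
    have h2 : p ∈ σ.support := by
      rw [Perm.mem_support]
      intro h
      exact h1 (Perm.pow_apply_eq_self_of_apply_eq_self h M)
    refine ⟨σ.cycleOf p, ⟨Perm.cycleOf_mem_cycleFactorsFinset_iff.2 h2, ?_⟩, ?_⟩
    · intro hd
      have hc : (σ.cycleOf p).IsCycle := Perm.isCycle_cycleOf σ (Perm.mem_support.1 h2)
      rw [← hc.orderOf] at hd
      have h3 := orderOf_dvd_iff_pow_eq_one.1 hd
      apply h1
      rw [← Perm.cycleOf_pow_apply_self, h3]
      rfl
    · rw [Perm.mem_support_cycleOf_iff]
      exact ⟨Perm.SameCycle.refl _ _, h2⟩
  · rintro ⟨c, ⟨hc, hd⟩, hp⟩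
    have h1 := Perm.cycle_is_cycleOf hp hc
    have hcy := (Perm.mem_cycleFactorsFinset_iff.1 hc).1
    rw [Perm.mem_support]
    intro h
    apply hd
    rw [← hcy.orderOf, orderOf_dvd_iff_pow_eq_one,
      hcy.pow_eq_one_iff' (Perm.mem_support.1 hp)]
    rw [← Perm.cycleOf_pow_apply_self, ← h1] at h
    exact h

/-- The number of points moved by a power. -/
lemma card_support_pow {α : Type*} [Fintype α] [DecidableEq α] (σ : Perm α) (M : ℕ) :
    (σ ^ M).support.card = (σ.cycleType.filter (fun m => ¬ m ∣ M)).sum := by
  rw [support_pow, Finset.card_biUnion]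
  · rw [Perm.cycleType_def, Multiset.filter_map]
    rfl
  · intro c hc c' hc' hne
    have := Perm.cycleFactorsFinset_pairwise_disjoint σ (Finset.mem_filter.1 hc).1
      (Finset.mem_filter.1 hc').1 hne
    exact this.disjoint_support

theorem thm : S_CLS := by
  classical
  intro n M q s hM hM3 hs hs2 hq hn hle hge
  have hMs : M ≠ s := by
    rintro rfl
    exact (Nat.not_even_iff_odd.2 hM) hs
  refine ⟨?_, ?_, ?_⟩
  · intro σ g h hh hg
    unfold Cls at hg ⊢
    simp only [Finset.mem_filter, Finset.mem_univ, true_and] at hg ⊢
    rw [hh, Perm.cycleType_conj, hg]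
  · intro u hu
    unfold Cls at hu
    simp only [Finset.mem_filter, Finset.mem_univ, true_and] at hu
    rw [card_support_pow, hu, Multiset.filter_add]
    have h1 : (Multiset.replicate q M).filter (fun m => ¬ m ∣ M) = 0 := by
      rw [Multiset.filter_eq_nil]
      intro a ha
      rw [Multiset.eq_of_mem_replicate ha]
      simp
    have h2 : (Multiset.replicate 2 s).filter (fun m => ¬ m ∣ M) = Multiset.replicate 2 s := by
      rw [Multiset.filter_eq_self]
      intro a ha
      rw [Multiset.eq_of_mem_replicate ha]
      intro hd
      have : Even M := by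
        obtain ⟨c, hc⟩ := hd
        rw [hc]
        exact hs.mul_right c
      exact (Nat.not_even_iff_odd.2 hM) this
    rw [h1, h2, zero_add, Multiset.sum_replicate, smul_eq_mul]
  · have hcard := AlternatingGroup.card_of_cycleType_mul_eq (Fin n)
      (Multiset.replicate q M + Multiset.replicate 2 s)
    have hsum : (Multiset.replicate q M + Multiset.replicate 2 s).sum = q * M + 2 * s := by
      rw [Multiset.sum_add, Multiset.sum_replicate, Multiset.sum_replicate, smul_eq_mul,
        smul_eq_mul]
    have hprod : (Multiset.replicate q M + Multiset.replicate 2 s).prod = M ^ q * s ^ 2 := by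
      rw [Multiset.prod_add, Multiset.prod_replicate, Multiset.prod_replicate]
    have hmc : (Multiset.replicate q M + Multiset.replicate 2 s).card = q + 2 := by
      rw [Multiset.card_add, Multiset.card_replicate, Multiset.card_replicate]
    have htf : (Multiset.replicate q M + Multiset.replicate 2 s).toFinset = {M, s} := by
      ext a
      rw [Multiset.mem_toFinset, Multiset.mem_add, Multiset.mem_replicate, Multiset.mem_replicate]
      simp only [Finset.mem_insert, Finset.mem_singleton]
      constructor
      · rintro (h | h)
        · exact Or.inl h.2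
        · exact Or.inr h.2
      · rintro (h | h)
        · exact Or.inl ⟨by omega, h⟩
        · exact Or.inr ⟨by omega, h⟩
    have hcM : (Multiset.replicate q M + Multiset.replicate 2 s).count M = q := by
      rw [Multiset.count_add, Multiset.count_replicate, Multiset.count_replicate]
      simp [hMs.symm]
    have hcs : (Multiset.replicate q M + Multiset.replicate 2 s).count s = 2 := by
      rw [Multiset.count_add, Multiset.count_replicate, Multiset.count_replicate]
      simp [hMs]
    rw [htf, Finset.prod_pair hMs, hcM, hcs, hsum, hprod, hmc, Fintype.card_fin, if_pos] at hcard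
    · have hCls : (Cls n M q s).card = ({g : alternatingGroup (Fin n) | (g : Perm (Fin n)).cycleType
          = Multiset.replicate q M + Multiset.replicate 2 s} : Finset _).card := by
        unfold Cls
        congr 1
      rw [← hCls] at hcard
      have : Nontrivial (Fin n) := Fin.nontrivial_iff_two_le.2 (by omega)
      have h2 : 2 * Fintype.card (Alt n) = n.factorial := by
        have := two_mul_card_alternatingGroup (α := Fin n)
        rw [Fintype.card_perm, Fintype.card_fin] at this
        exact this
      have hA : Fintype.card (Alt n) = (Cls n M q s).card *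
          ((n - (q * M + 2 * s)).factorial * (M ^ q * s ^ 2) * q.factorial) := by
        have h3 : (2 : ℕ).factorial = 2 := rfl
        rw [h3] at hcard
        have : 2 * Fintype.card (Alt n) = 2 * ((Cls n M q s).card *
          ((n - (q * M + 2 * s)).factorial * (M ^ q * s ^ 2) * q.factorial)) := by
          rw [h2, ← hcard]
          ring
        omega
      have hMn : M ≤ n := by nlinarith
      have hqn : q ≤ n := by nlinarith
      have hf : (n - (q * M + 2 * s)).factorial ≤ n := by
        calc (n - (q * M + 2 * s)).factorial ≤ (3 : ℕ).factorial :=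
              Nat.factorial_le (by omega)
          _ = 6 := rfl
          _ ≤ n := hn
      have hMq : M ^ q ≤ n ^ q := Nat.pow_le_pow_left hMn q
      have hs' : s ^ 2 ≤ n ^ 2 := Nat.pow_le_pow_left (by omega) 2
      have hqf : q.factorial ≤ n ^ q :=
        (Nat.factorial_le_pow q).trans (Nat.pow_le_pow_left hqn q)
      have hfin : Fintype.card (Alt n) ≤ n ^ (2 * q + 3) * (Cls n M q s).card := by
        rw [hA]
        calc (Cls n M q s).card *
              ((n - (q * M + 2 * s)).factorial * (M ^ q * s ^ 2) * q.factorial)
            ≤ (Cls n M q s).card * (n * (n ^ q * n ^ 2) * n ^ q) := by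
              gcongr
          _ = n ^ (2 * q + 3) * (Cls n M q s).card := by ring
      exact_mod_cast hfin
    · refine ⟨⟨hle, ?_⟩, ?_⟩
      · intro a ha
        rw [Multiset.mem_add] at ha
        rcases ha with h | h
        · rw [Multiset.eq_of_mem_replicate h]; omega
        · rw [Multiset.eq_of_mem_replicate h]; exact hs2
      · have : q * M + 2 * s + (q + 2) = q * (M + 1) + 2 * (s + 1) := by ring
        rw [this]
        exact ((hM.add_one).mul_left q).add (even_two.mul_right _)

end Pool.Agent.Helper56.GP
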