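import Pool.Agent.Helper89.GP.GoalsA

/-!
Project GP (MP_480c30_co), packet RW4.
-/

namespace Pool.Agent.Helper56.GP

open Finset Pool.Agent.Helper89.GP

theorem sum4 (b : ℕ → ℝ) (hb : ∀ k, 0 ≤ b k) (n : ℕ) :
    -(3 * b 0) - 2 * b 1 - b 2 ≤ ∑ k ∈ range n, ((k : ℝ) - 3) * b k := by
  have h3 : ∀ m : ℕ, -(3 * b 0) - 2 * b 1 - b 2 ≤ ∑ k ∈ range (m + 3), ((k : ℝ) - 3) * b k := by
    intro m
    induction m with
    | zero =>
      rw [sum_range_succ, sum_range_succ, sum_range_succ, sum_range_zero]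
      push_cast
      have h0 := hb 0
      have h1 := hb 1
      have h2 := hb 2
      norm_num
    | succ m ih =>
      rw [show m + 1 + 3 = (m + 3) + 1 from by ring, sum_range_succ]
      have : (0 : ℝ) ≤ (((m + 3 : ℕ) : ℝ) - 3) * b (m + 3) := by
        apply mul_nonneg _ (hb _)
        push_cast
        have : (0 : ℝ) ≤ (m : ℝ) := Nat.cast_nonneg m
        linarith
      linarith
  have h0 := hb 0
  have h1 := hb 1
  have h2 := hb 2
  match n with
  | 0 => simp; linarith
  | 1 => rw [sum_range_succ, sum_range_zero]; norm_num; linarith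
  | 2 => rw [sum_range_succ, sum_range_succ, sum_range_zero]; norm_num; linarith
  | m + 3 => exact h3 m

theorem sum3 (b : ℕ → ℝ) (hb : ∀ k, 0 ≤ b k) (n : ℕ) :
    -(2 * b 0) - b 1 ≤ ∑ k ∈ range n, ((k : ℝ) - 2) * b k := by
  have h3 : ∀ m : ℕ, -(2 * b 0) - b 1 ≤ ∑ k ∈ range (m + 2), ((k : ℝ) - 2) * b k := by
    intro m
    induction m with
    | zero =>
      rw [sum_range_succ, sum_range_succ, sum_range_zero]
      have h0 := hb 0
      have h1 := hb 1
      norm_num
    | succ m ih =>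
      rw [show m + 1 + 2 = (m + 2) + 1 from by ring, sum_range_succ]
      have : (0 : ℝ) ≤ (((m + 2 : ℕ) : ℝ) - 2) * b (m + 2) := by
        apply mul_nonneg _ (hb _)
        push_cast
        have : (0 : ℝ) ≤ (m : ℝ) := Nat.cast_nonneg m
        linarith
      linarith
  have h0 := hb 0
  have h1 := hb 1
  match n with
  | 0 => simp; linarith
  | 1 => rw [sum_range_succ, sum_range_zero]; norm_num; linarith
  | m + 2 => exact h3 m

theorem rw4 : Rw4Stmt := by
  intro n b A c N hb _ hc hA h0 h1 h2 h2' hs hN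
  have e4 : ∑ k ∈ range n, ((k : ℝ) + 1) * b k =
      ∑ k ∈ range n, ((k : ℝ) - 3) * b k + 4 * (1 - A) := by
    rw [← hs, mul_sum, ← sum_add_distrib]
    exact sum_congr rfl fun k _ => by ring
  have e3 : ∑ k ∈ range n, ((k : ℝ) + 1) * b k =
      ∑ k ∈ range n, ((k : ℝ) - 2) * b k + 3 * (1 - A) := by
    rw [← hs, mul_sum, ← sum_add_distrib]
    exact sum_congr rfl fun k _ => by ring
  have s4 := sum4 b hb n
  have s3 := sum3 b hb n
  have hs0 : 0 < c / A := div_pos hc hA
  have hsc : A * (c / A) = c := by field_simp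
  have hNb : N ≤ A * (1 / (c / A)) := by
    rw [one_div_div, ← mul_div_assoc, le_div_iff₀ hc]
    nlinarith
  have hb2 : b 2 ≤ (1 + c / A) ^ 2 * c := by
    have hq : (b 1) ^ 2 ≤ ((1 + c / A) * c) ^ 2 := by
      have := hb 1
      gcongr
    have : c * b 2 ≤ c * ((1 + c / A) ^ 2 * c) := by nlinarith
    exact le_of_mul_le_mul_left this hc
  rw [h0] at s4 s3
  refine ⟨?_, ?_, ?_⟩
  · rw [e4]
    have : A * (4 + (c / A) * (6 + 4 * (c / A) + (c / A) ^ 2) + 1 / (c / A)) =
        4 * A + c * (6 + 4 * (c / A) + (c / A) ^ 2) + A * (1 / (c / A)) := by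
      rw [mul_add, mul_add, ← mul_assoc A (c / A), hsc]
      ring
    rw [this]
    nlinarith
  · rw [e3]
    have : A * (3 + (c / A) * (3 + c / A) + 1 / (c / A)) =
        3 * A + c * (3 + c / A) + A * (1 / (c / A)) := by
      rw [mul_add, mul_add, ← mul_assoc A (c / A), hsc]
      ring
    rw [this]
    nlinarith
  · rw [e3]
    have : A * (2 * (c / A) + 1 / (c / A)) = 2 * c + A * (1 / (c / A)) := by
      rw [mul_add, mul_left_comm, hsc]
    rw [this]
    linarith

end Pool.Agent.Helper56.GP
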